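import Pool.Agent.H852R2.EX.Defs
import Pool.Agent.H852R2.EX.S.SWITCH
import Pool.Agent.H332R2.EX.LOCAL

/-!
Task FIXCNT (helper36): few `b` such that the block word `w` has many fixed points.
-/

namespace RC852.FIXCNT
open RC14 Finset

section

variable {n q : ℕ} {K : Type*} (g : K → Equiv.Perm (Fin n)) (b : Fin q → Equiv.Perm (Fin n))

theorem posn_append (u v : List (K × (Fin q × Bool))) (p : Fin n) :
    posn g b (u ++ v) p = posn g b u (posn g b v p) := by
  simp only [posn, List.map_append, List.prod_append, Equiv.Perm.mul_apply]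

theorem posn_cons (c : K × (Fin q × Bool)) (v : List (K × (Fin q × Bool))) (p : Fin n) :
    posn g b (c :: v) p = sl b c.2 (g c.1 (posn g b v p)) := by
  simp only [posn, List.map_cons, List.prod_cons, Equiv.Perm.mul_apply, blk]

theorem edg_append (u v : List (K × (Fin q × Bool))) (p : Fin n) :
    edg g b (u ++ v) p = edg g b u (posn g b v p) ++ edg g b v p := by
  induction u with
  | nil => rfl
  | cons c u ih =>
    rw [List.cons_append, edg, ih, edg, List.cons_append, posn_append]

theorem length_edg (u : List (K × (Fin q × Bool))) (p : Fin n) :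
    (edg g b u p).length = u.length := by
  induction u with
  | nil => rfl
  | cons c u ih => rw [edg, List.length_cons, ih, List.length_cons]

theorem posn_inj (u : List (K × (Fin q × Bool))) : Function.Injective (posn g b u) :=
  (u.map (blk g b)).prod.injective

end

/-- double counting of updates -/
theorem card_update {q : ℕ} {A : Type*} [Fintype A] (i : Fin q) (P : (Fin q → A) → Prop) :
    ∑ b : Fin q → A, Nat.card {β : A // P (Function.update b i β)} =
      Fintype.card A * Nat.card {b : Fin q → A // P b} := by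
  classical
  have e : {x : (Fin q → A) × A // P (Function.update x.1 i x.2)} ≃
      {x : (Fin q → A) × A // P x.1} :=
    { toFun := fun x => ⟨(Function.update x.1.1 i x.1.2, x.1.1 i), x.2⟩
      invFun := fun x => ⟨(Function.update x.1.1 i x.1.2, x.1.1 i), by
        have := x.2
        simp only [Function.update_idem, Function.update_eq_self]
        exact this⟩
      left_inv := by
        rintro ⟨⟨b, β⟩, h⟩
        simp
      right_inv := by
        rintro ⟨⟨b, β⟩, h⟩
        simp }
  have h1 : Nat.card {x : (Fin q → A) × A // P (Function.update x.1 i x.2)} =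
      ∑ b : Fin q → A, Nat.card {β : A // P (Function.update b i β)} := by
    rw [Nat.card_congr (Equiv.subtypeProdEquivSigmaSubtype
      (fun (b : Fin q → A) (β : A) => P (Function.update b i β))), Nat.card_sigma]
  have h2 : Nat.card {x : (Fin q → A) × A // P x.1} =
      Fintype.card A * Nat.card {b : Fin q → A // P b} := by
    rw [Nat.card_congr (Equiv.prodSubtypeFstEquivSubtypeProd (p := P)), Nat.card_prod,
      mul_comm, Nat.card_eq_fintype_card]
  rw [← h1, Nat.card_congr e, h2]

section perT

variable {n q : ℕ} {K : Type*} (g : K → Equiv.Perm (Fin n)) (b0 : Fin q → Equiv.Perm (Fin n))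
  (u1 u2 : List (K × (Fin q × Bool))) (k : K) (i : Fin q)

/-- the rest of the walk -/
def Wt (β : Equiv.Perm (Fin n)) : Equiv.Perm (Fin n) :=
  g k * (u2.map (blk g (Function.update b0 i β))).prod *
    (u1.map (blk g (Function.update b0 i β))).prod

theorem Wt_apply (β : Equiv.Perm (Fin n)) (y : Fin n) :
    Wt g b0 u1 u2 k i β y = g k (posn g (Function.update b0 i β) u2
      (posn g (Function.update b0 i β) u1 y)) := by
  simp only [Wt, posn, Equiv.Perm.mul_apply]

/-- the points at which `b_i` is queried by the rest of the walk -/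
def Qt (β : Equiv.Perm (Fin n)) (y : Fin n) : Finset (Fin n) :=
  (((edg g (Function.update b0 i β) u1 y ++ edg g (Function.update b0 i β) u2
      (posn g (Function.update b0 i β) u1 y)).filter (fun e => e.1 = i)).map Prod.snd).toFinset

theorem mem_Qt (β : Equiv.Perm (Fin n)) (y a : Fin n) :
    a ∈ Qt g b0 u1 u2 i β y ↔ (i, a) ∈ edg g (Function.update b0 i β) u1 y ∨
      (i, a) ∈ edg g (Function.update b0 i β) u2 (posn g (Function.update b0 i β) u1 y) := by
  rw [Qt, List.mem_toFinset, List.mem_map]
  constructor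
  · rintro ⟨⟨j, x⟩, h1, h2⟩
    rw [List.mem_filter, List.mem_append] at h1
    simp only [decide_eq_true_eq] at h1 h2
    obtain ⟨h3, rfl⟩ := h1
    subst h2
    exact h3
  · intro h
    refine ⟨(i, a), ?_, rfl⟩
    rw [List.mem_filter, List.mem_append]
    exact ⟨h, by simp⟩

theorem card_Qt (β : Equiv.Perm (Fin n)) (y : Fin n) :
    (Qt g b0 u1 u2 i β y).card ≤ u1.length + u2.length := by
  rw [Qt]
  refine (List.toFinset_card_le _).trans ?_
  rw [List.length_map]
  refine (List.length_filter_le _ _).trans ?_
  rw [List.length_append, length_edg, length_edg]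

theorem loc (β β' : Equiv.Perm (Fin n)) (y : Fin n)
    (h : ∀ a ∈ Qt g b0 u1 u2 i β y, β' a = β a) :
    Wt g b0 u1 u2 k i β' y = Wt g b0 u1 u2 k i β y := by
  have key : ∀ (u : List (K × (Fin q × Bool))) (x : Fin n),
      (∀ e ∈ edg g (Function.update b0 i β) u x, e.1 = i → e.2 ∈ Qt g b0 u1 u2 i β y) →
      posn g (Function.update b0 i β') u x = posn g (Function.update b0 i β) u x := by
    intro u x hx
    refine (LOCAL g _ _ u x fun e he => ?_).1
    by_cases hi : e.1 = i
    · rw [hi, Function.update_self, Function.update_self]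
      exact h _ (hx e he hi)
    · rw [Function.update_of_ne hi, Function.update_of_ne hi]
  have h1 := key u1 y (by
    rintro ⟨j, a⟩ he hi
    simp only at hi
    subst hi
    exact (mem_Qt g b0 u1 u2 _ β y a).2 (Or.inl he))
  rw [Wt_apply, Wt_apply, h1]
  have h2 := key u2 (posn g (Function.update b0 i β) u1 y) (by
    rintro ⟨j, a⟩ he hi
    simp only at hi
    subst hi
    exact (mem_Qt g b0 u1 u2 _ β y a).2 (Or.inr he))
  rw [h2]

/-- `t` is used only once in the walk from `p` -/
def Uq (b : Fin q → Equiv.Perm (Fin n)) (c : K × (Fin q × Bool)) (p : Fin n) : Prop :=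
  posn g b (u1 ++ c :: u2) p = p ∧ eid g b c (posn g b u2 p) ∉ edg g b u1 (posn g b (c :: u2) p) ∧
    eid g b c (posn g b u2 p) ∉ edg g b u2 p

open Classical in
theorem perT (f K' F' J : ℕ) (hf : Odd f) (c : K × (Fin q × Bool))
    (hJ : u1.length + u2.length ≤ J) (hF : 2 * (f * (3 * J + 1) + K') ≤ F') :
    Nat.card {β : Alt n // F' ≤ #{p : Fin n |
      Uq g u1 u2 (Function.update b0 c.2.1 (β : Equiv.Perm (Fin n))) c p}} * K' ^ f ≤
      Fintype.card (Alt n) * n := by
  obtain ⟨k, i, s⟩ := c
  have hmono : ∀ (P Q : Alt n → Prop), (∀ β, P β → Q β) →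
      Nat.card {β : Alt n // P β} ≤ Nat.card {β : Alt n // Q β} := fun P Q h =>
    Nat.card_le_card_of_injective (Subtype.map id h) (Subtype.map_injective _ Function.injective_id)
  cases s with
  | false =>
    refine le_trans (Nat.mul_le_mul_right _ (hmono _ _ ?_))
      (SWITCH n f J K' F' hf (Wt g b0 u1 u2 k i) (Qt g b0 u1 u2 i)
        (fun β y => (card_Qt g b0 u1 u2 i β y).trans hJ)
        (fun β β' y h => loc g b0 u1 u2 k i β β' y h) hF)
    intro β hβ
    refine hβ.trans ?_
    set B := Function.update b0 i (β : Equiv.Perm (Fin n)) with hB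
    refine Finset.card_le_card_of_injOn (fun p => posn g B ((k, i, false) :: u2) p) ?_
      (fun p _ p' _ h => posn_inj g B _ h)
    intro p hp
    rw [Finset.mem_coe, Finset.mem_filter] at hp
    obtain ⟨-, h1, h2, h3⟩ := hp
    rw [posn_append] at h1
    have hy : posn g B ((k, i, false) :: u2) p = (B i)⁻¹ (g k (posn g B u2 p)) := by
      rw [posn_cons, sl]; rfl
    have he : eid g B (k, i, false) (posn g B u2 p) =
        (i, posn g B ((k, i, false) :: u2) p) := by
      rw [hy, eid]; rfl
    rw [he] at h2 h3
    rw [Finset.mem_coe, Finset.mem_filter]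
    refine ⟨Finset.mem_univ _, ?_, ?_⟩
    · beta_reduce
      rw [Wt_apply, ← hB, h1, hy, hB, Function.update_self]
      exact (β : Equiv.Perm (Fin n)).apply_symm_apply _
    · rw [mem_Qt, ← hB, h1]
      rintro (h4 | h4)
      · exact h2 h4
      · exact h3 h4
  | true =>
    refine le_trans (Nat.mul_le_mul_right _ (hmono _ _ ?_))
      (SWITCH n f J K' F' hf (fun β => (Wt g b0 u1 u2 k i β)⁻¹)
        (fun β p => Qt g b0 u1 u2 i β ((Wt g b0 u1 u2 k i β)⁻¹ p))
        (fun β y => (card_Qt g b0 u1 u2 i β _).trans hJ)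
        (fun β β' p h => ?_) hF)
    · intro β hβ
      refine hβ.trans ?_
      set B := Function.update b0 i (β : Equiv.Perm (Fin n)) with hB
      refine Finset.card_le_card_of_injOn (fun p => g k (posn g B u2 p)) ?_
        (fun p _ p' _ h => posn_inj g B _ ((g k).injective h))
      intro p hp
      rw [Finset.mem_coe, Finset.mem_filter] at hp
      obtain ⟨-, h1, h2, h3⟩ := hp
      rw [posn_append] at h1
      have hy : posn g B ((k, i, true) :: u2) p = B i (g k (posn g B u2 p)) := by
        rw [posn_cons, sl]; rfl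
      have he : eid g B (k, i, true) (posn g B u2 p) = (i, g k (posn g B u2 p)) := by
        rw [eid]; rfl
      rw [he] at h2 h3
      have hW : (Wt g b0 u1 u2 k i β)⁻¹ (g k (posn g B u2 p)) =
          posn g B ((k, i, true) :: u2) p := by
        rw [Equiv.Perm.inv_eq_iff_eq, Wt_apply, ← hB, h1]
      rw [Finset.mem_coe, Finset.mem_filter]
      refine ⟨Finset.mem_univ _, ?_, ?_⟩
      · rw [hW, hy, hB, Function.update_self]
      · rw [hW, mem_Qt, ← hB, h1]
        rintro (h4 | h4)
        · exact h2 h4
        · exact h3 h4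
    · have h4 := loc g b0 u1 u2 k i β β' _ h
      have h5 : Wt g b0 u1 u2 k i β ((Wt g b0 u1 u2 k i β)⁻¹ p) = p :=
        (Wt g b0 u1 u2 k i β).apply_symm_apply _
      rw [h5] at h4
      rw [Equiv.Perm.inv_eq_iff_eq, h4]

end perT

section final

variable {n q : ℕ} {K : Type*} (g : K → Equiv.Perm (Fin n))

theorem split_list {J : ℕ} (w : Fin J → K × (Fin q × Bool)) (t : Fin J) :
    List.ofFn w = (List.ofFn w).take t ++ w t :: (List.ofFn w).drop (t + 1) := by
  have h := (List.take_append_drop (t : ℕ) (List.ofFn w)).symm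
  rw [List.drop_eq_getElem_cons (by simp)] at h
  rw [List.getElem_ofFn] at h
  exact h

/-- `t` is unique: consequence -/
theorem uq_of_count {J : ℕ} (w : Fin J → K × (Fin q × Bool)) (b : Fin q → Equiv.Perm (Fin n))
    (p : Fin n) (hp : posn g b (List.ofFn w) p = p) (t : Fin J)
    (s : Fin (edg g b (List.ofFn w) p).length) (hs : (s : ℕ) = t)
    (h : (edg g b (List.ofFn w) p).count ((edg g b (List.ofFn w) p).get s) = 1) :
    Uq g ((List.ofFn w).take t) ((List.ofFn w).drop (t + 1)) b (w t) p := by
  have h0 := split_list w t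
  set u1 := (List.ofFn w).take t with hu1
  set u2 := (List.ofFn w).drop (t + 1) with hu2
  have hlen1 : u1.length = t := by
    rw [hu1, List.length_take, List.length_ofFn]
    omega
  have he : edg g b (List.ofFn w) p = edg g b u1 (posn g b (w t :: u2) p) ++
      eid g b (w t) (posn g b u2 p) :: edg g b u2 p := by
    rw [h0, edg_append, edg]
  have hget : (edg g b (List.ofFn w) p).get s = eid g b (w t) (posn g b u2 p) := by
    have h1 : (edg g b (List.ofFn w) p)[(t : ℕ)]? = some (eid g b (w t) (posn g b u2 p)) := by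
      rw [he, List.getElem?_append_right (by rw [length_edg, hlen1]), length_edg, hlen1,
        Nat.sub_self]
      rfl
    have h2 : (edg g b (List.ofFn w) p)[(t : ℕ)]? = some ((edg g b (List.ofFn w) p).get s) := by
      rw [← hs, List.getElem?_eq_getElem s.2]
      rfl
    rw [h1] at h2
    exact (Option.some.inj h2).symm
  rw [hget, he, List.count_append, List.count_cons_self] at h
  refine ⟨by rw [← h0]; exact hp, ?_, ?_⟩
  · rw [← List.count_eq_zero]; omega
  · rw [← List.count_eq_zero]; omega

open Classical in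
theorem exists_t {J F : ℕ} (hJ : 1 ≤ J) (w : Fin J → K × (Fin q × Bool))
    (b : Fin q → Equiv.Perm (Fin n)) (hF : F ≤ nfix (bwd g b w))
    (hd : ∀ p, 3 * J ≤ 4 * dst g b (List.ofFn w) p) :
    ∃ t : Fin J, (F + 1) / 2 ≤ #{p : Fin n |
      Uq g ((List.ofFn w).take t) ((List.ofFn w).drop (t + 1)) b (w t) p} := by
  by_contra hcon
  push Not at hcon
  have hbw : ∀ p, bwd g b w p = posn g b (List.ofFn w) p := by
    intro p
    rw [bwd, posn, List.map_ofFn]
    rfl
  -- double counting
  have h1 : ∀ p, posn g b (List.ofFn w) p = p → J ≤ 2 * #{t : Fin J |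
      Uq g ((List.ofFn w).take t) ((List.ofFn w).drop (t + 1)) b (w t) p} := by
    intro p hp
    have h2 := UNIQ (edg g b (List.ofFn w) p)
    have h3 := hd p
    have hl : (edg g b (List.ofFn w) p).length = J := by
      rw [length_edg, List.length_ofFn]
    have h4 : #{s : Fin (edg g b (List.ofFn w) p).length |
        (edg g b (List.ofFn w) p).count ((edg g b (List.ofFn w) p).get s) = 1} ≤
        #{t : Fin J | Uq g ((List.ofFn w).take t) ((List.ofFn w).drop (t + 1)) b (w t) p} := by
      refine Finset.card_le_card_of_injOn (Fin.cast hl) ?_ (fun s _ s' _ h => ?_)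
      · intro s hs
        rw [Finset.mem_coe, Finset.mem_filter] at hs ⊢
        exact ⟨Finset.mem_univ _, uq_of_count g w b p hp (Fin.cast hl s) s rfl hs.2⟩
      · exact Fin.cast_injective hl h
    rw [dst] at h3
    have h5 : 2 * (edg g b (List.ofFn w) p).toFinset.card ≤ (edg g b (List.ofFn w) p).length +
        #{s : Fin (edg g b (List.ofFn w) p).length |
        (edg g b (List.ofFn w) p).count ((edg g b (List.ofFn w) p).get s) = 1} := by
      convert h2
    omega
  have h5 : J * nfix (bwd g b w) ≤ 2 * ∑ t : Fin J, #{p : Fin n |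
      Uq g ((List.ofFn w).take t) ((List.ofFn w).drop (t + 1)) b (w t) p} := by
    have h6 : ∑ t : Fin J, #{p : Fin n |
        Uq g ((List.ofFn w).take t) ((List.ofFn w).drop (t + 1)) b (w t) p} =
        ∑ p : Fin n, #{t : Fin J |
          Uq g ((List.ofFn w).take t) ((List.ofFn w).drop (t + 1)) b (w t) p} := by
      simp only [Finset.card_filter]
      rw [Finset.sum_comm]
    rw [h6, Finset.mul_sum, nfix, mul_comm, ← smul_eq_mul, ← Finset.sum_const]
    refine (Finset.sum_le_sum (g := fun p => 2 * #{t : Fin J |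
          Uq g ((List.ofFn w).take t) ((List.ofFn w).drop (t + 1)) b (w t) p}) ?_).trans
      (Finset.sum_le_sum_of_subset (Finset.subset_univ _))
    intro p hp
    rw [Finset.mem_filter] at hp
    exact h1 p (by rw [← hbw]; exact hp.2)
  have h7 : ∑ t : Fin J, #{p : Fin n |
      Uq g ((List.ofFn w).take t) ((List.ofFn w).drop (t + 1)) b (w t) p} ≤
      ∑ _t : Fin J, ((F + 1) / 2 - 1) :=
    Finset.sum_le_sum fun t _ => by have := hcon t; omega
  rw [Finset.sum_const, Finset.card_univ, Fintype.card_fin, smul_eq_mul] at h7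
  have h8 := hcon ⟨0, by omega⟩
  have hF1 : 2 * ((F + 1) / 2 - 1) + 1 ≤ F := by omega
  have h9 : J * F ≤ J * nfix (bwd g b w) := Nat.mul_le_mul_left _ hF
  have h10 : J * (2 * ((F + 1) / 2 - 1) + 1) ≤ J * F := Nat.mul_le_mul_left _ hF1
  nlinarith

end final

end RC852.FIXCNT

namespace RC852
open RC14 Finset FIXCNT

/-- for a fixed block word `w`: few `b` such that `w` has many fixed points although all walks
use many different `b`-edges -/
theorem FIXCNT (n q J F f K' : ℕ) (hJ : 1 ≤ J) (hf : Odd f) {K : Type*} [Fintype K]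
    (g : K → Equiv.Perm (Fin n)) (w : Fin J → K × (Fin q × Bool))
    (hF : 4 * (f * (3 * J + 1) + K') ≤ F) :
    Nat.card {b : Fin q → Alt n // F ≤ nfix (bwd g (fun i => (b i : Equiv.Perm (Fin n))) w) ∧
      ∀ p, 3 * J ≤ 4 * dst g (fun i => (b i : Equiv.Perm (Fin n))) (List.ofFn w) p} * K' ^ f ≤
        Fintype.card (Alt n) ^ q * (J * n) := by
  classical
  set P : Fin J → (Fin q → Alt n) → Prop := fun t b => (F + 1) / 2 ≤ #{p : Fin n |
      Uq g ((List.ofFn w).take t) ((List.ofFn w).drop (t + 1))
        (fun i => (b i : Equiv.Perm (Fin n))) (w t) p} with hP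
  -- one `t`
  have h1 : ∀ t, Nat.card {b : Fin q → Alt n // P t b} * K' ^ f ≤
      Fintype.card (Alt n) ^ q * n := by
    intro t
    have h2 := card_update (w t).2.1 (P t)
    have h3 : ∀ b : Fin q → Alt n,
        Nat.card {β : Alt n // P t (Function.update b (w t).2.1 β)} * K' ^ f ≤
          Fintype.card (Alt n) * n := by
      intro b
      have h4 := perT g (fun i => (b i : Equiv.Perm (Fin n))) ((List.ofFn w).take t)
        ((List.ofFn w).drop (t + 1)) f K' ((F + 1) / 2) J hf (w t)
        (by
          rw [List.length_take, List.length_drop, List.length_ofFn]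
          omega) (by omega)
      have h5 : ∀ β : Alt n, (fun i => ((Function.update b (w t).2.1 β i : Alt n) :
          Equiv.Perm (Fin n))) = Function.update (fun i => (b i : Equiv.Perm (Fin n))) (w t).2.1
            (β : Equiv.Perm (Fin n)) := by
        intro β
        funext j
        by_cases hj : j = (w t).2.1
        · subst hj; simp
        · simp [hj]
      simp only [hP, h5]
      convert h4
    have h6 : Fintype.card (Alt n) * (Nat.card {b : Fin q → Alt n // P t b} * K' ^ f) ≤
        Fintype.card (Alt n) * (Fintype.card (Alt n) ^ q * n) := by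
      rw [← mul_assoc, ← h2, Finset.sum_mul]
      refine (Finset.sum_le_sum fun b _ => h3 b).trans ?_
      rw [Finset.sum_const, Finset.card_univ, Fintype.card_fun, Fintype.card_fin, smul_eq_mul]
      exact le_of_eq (by ring)
    exact Nat.le_of_mul_le_mul_left h6 Fintype.card_pos
  -- union
  have h7 : Nat.card {b : Fin q → Alt n // F ≤ nfix (bwd g (fun i => (b i : Equiv.Perm (Fin n))) w) ∧
      ∀ p, 3 * J ≤ 4 * dst g (fun i => (b i : Equiv.Perm (Fin n))) (List.ofFn w) p} ≤
      ∑ t : Fin J, Nat.card {b : Fin q → Alt n // P t b} := by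
    simp only [Nat.card_eq_fintype_card, Fintype.card_subtype]
    refine (Finset.card_le_card ?_).trans Finset.card_biUnion_le
    intro b hb
    rw [Finset.mem_filter] at hb
    obtain ⟨t, ht⟩ := exists_t g hJ w (fun i => (b i : Equiv.Perm (Fin n))) hb.2.1 hb.2.2
    rw [Finset.mem_biUnion]
    refine ⟨t, Finset.mem_univ _, ?_⟩
    rw [Finset.mem_filter]
    refine ⟨Finset.mem_univ _, ?_⟩
    simp only [hP]
    convert ht
  calc _ ≤ (∑ t : Fin J, Nat.card {b : Fin q → Alt n // P t b}) * K' ^ f :=
        Nat.mul_le_mul_right _ h7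
    _ ≤ ∑ _t : Fin J, Fintype.card (Alt n) ^ q * n := by
        rw [Finset.sum_mul]
        exact Finset.sum_le_sum fun t _ => h1 t
    _ = Fintype.card (Alt n) ^ q * (J * n) := by
        rw [Finset.sum_const, Finset.card_univ, Fintype.card_fin, smul_eq_mul]
        ring

end RC852
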